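import Mathlib
import Pool.Agent.X99.RL.Main
import Pool.Agent.Y948.CQ.C2

/-!
# The twists of `X_0(49)` over the multiquadratic extensions of cyclic fields

`R` is a nonempty finite set of primes `r ≡ 1 mod 4` which are inert in `ℚ(√-7)`, `n_r ≥ 1`, and `K_r` is
the subfield of degree `2 ^ n_r` of `ℚ(ζ_r)`, a cyclic field, for `r ∈ R`. `E_M : y² = x³ - 35 M² x - 98 M³`
is the quadratic twist by `M` of the curve `X_0(49)`. The class consists of the odd squarefree positive
integers prime to `R` whose prime factors are `1` modulo `4`, split completely in all the fields `K_r` if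
they split in `ℚ(√-7)`, and have Frobenius elements of order one or two in all the fields `K_r`
otherwise. `D` is good if it is in the class, the groups `E_D(K_r)` are finite and `Ш(E_D/K_r)` has no
element of order two, `r ∈ R`. The pair of an integer `M` and of `d_1, …, d_k` is good if `d_1, …, d_k` are
independent modulo squares and all the `2ᵏ` numbers `M ∏_{i ∈ T} d_i` are good up to squares.

For every good pair, every `r ∈ R` and `F = K_r(√d_1, …, √d_k)`: the degree of `F` is `2 ^ (n_r + k)`, the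
group `E_M(F)` is finite, the `L`-series of `E_M` over `F` continues analytically to a connected open set
containing `1`, is not zero at `1`, and the conclusion of the frozen statement `S16511` (the order at `1`
is the rank) holds for `E_M` over `F`; `Ш(E_M/F)[2^∞]` is finite and killed by `2ᵏ`. If `d_1, …, d_k` are
independent modulo squares and in the class up to squares, as is `M`, then `(M D; d_1, …, d_k)` is good
for a proportion of exactly `c^(2ᵏ)` of the `D` of the class ordered by size,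
`c = ∏ (1 - 2^(-2 i - 1)) = 0.419…`. If `(M; d_1, …, d_k)` is good then `(M; d_1, …, d_k, D)` is good for a
proportion of exactly `c^(2ᵏ)` of the `D` of the class.

Proof. The values and the descent over `K_r` are those of the teams of `Pool/Agent/Y698`; the joint law
is `Pool/Agent/X99/GJ` and `X99/C49/KR`. New is the passage from `K_r` to `K_r(√d_1, …, √d_k)`
(`Pool/Agent/X99/RL`): the decomposition of the places in a quadratic extension of an arbitrary number
field and the factorisation of the Euler product of `y² = x³ + a x + b` with rational integers `a, b`;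
the rank and `Ш` are from `Y888/XD` and `Y682/YS`; the passage to Mathlib's `L`-series is
`Pool/Agent/X99/LS`.
-/

set_option autoImplicit false

open NumberField IsDedekindDomain Filter Topology
open scoped Classical

namespace Pool.Agent.Results.MP_32c55d_nt.CyclicMultiquadraticFields

/-- the curve `y² = x³ - 35 M² x - 98 M³` over the field `K`, the quadratic twist by `M` of
`X_0(49)` -/
def E (K : Type) [Field K] (M : ℤ) : WeierstrassCurve K :=
  { a₁ := 0, a₂ := 0, a₃ := 0, a₄ := ((-35 * M ^ 2 : ℤ) : K), a₆ := ((-98 * M ^ 3 : ℤ) : K) }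

/-- the class: `D` is squarefree, its prime factors are `1` modulo `4`, are not in `R`, those which split in
`ℚ(√-7)` split completely in the fields `K_r` of degree `2 ^ n_r` (they are `2 ^ n_r`-th powers modulo
`r`), and the others have Frobenius elements of order one or two in `Gal(K_r/ℚ)` (their squares are
`2 ^ n_r`-th powers modulo `r`) -/
def Class (R : Finset ℕ) (n : ℕ → ℕ) (D : ℕ) : Prop := Squarefree D ∧ ∀ p : ℕ, p.Prime → p ∣ D →
  p % 4 = 1 ∧ ∀ r ∈ R, p ≠ r ∧
    (IsSquare (-7 : ZMod p) → ∃ y : ZMod r, y ^ 2 ^ n r = (p : ZMod r)) ∧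
    (¬ IsSquare (-7 : ZMod p) → ∃ y : ZMod r, y ^ 2 ^ n r = (p : ZMod r) ^ 2)

/-- `D` is in the class and, for all `r ∈ R`, `E_D(K_r)` is finite and `Ш(E_D/K_r)` has no element of
order two -/
def Good (R : Finset ℕ) (n : ℕ → ℕ) (K : ∀ r : ℕ, IntermediateField ℚ (CyclotomicField r ℚ))
    (D : ℕ) : Prop := Class R n D ∧ ∀ r ∈ R, Finite (E (K r) D).toAffine.Point ∧
  ∀ x : Pool.Agent.TH841.NF.D.Sha (E (K r) D), x + x = 0 → x = 0

/-- `z` has the property `C` up to squares -/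
def UpToSquares (C : ℕ → Prop) (z : ℤ) : Prop := ∃ (D : ℕ) (k : ℤ), C D ∧ k ≠ 0 ∧ z = D * k ^ 2

/-- `d_1, …, d_k` are independent modulo squares -/
def Independent {k : ℕ} (d : Fin k → ℤ) : Prop :=
  ∀ T : Finset (Fin k), T.Nonempty → ¬ IsSquare (∏ i ∈ T, d i)

/-- the pair of `M` and `d_1, …, d_k` is good: `d_1, …, d_k` are independent modulo squares and
all the numbers `M ∏_{i ∈ T} d_i` are good up to squares -/
def GoodPair (R : Finset ℕ) (n : ℕ → ℕ) (K : ∀ r : ℕ, IntermediateField ℚ (CyclotomicField r ℚ))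
    {k : ℕ} (M : ℤ) (d : Fin k → ℤ) : Prop :=
  Independent d ∧ ∀ T : Finset (Fin k), UpToSquares (Good R n K) (M * ∏ i ∈ T, d i)

/-- `F = K(√d_1, …, √d_k)` -/
def IsMultiquadratic (K : Type) [Field K] {k : ℕ} (d : Fin k → ℤ) (F : Type) [Field F]
    [Algebra K F] : Prop :=
  ∃ x : Fin k → F, (∀ i, x i ^ 2 = (d i : F)) ∧ IntermediateField.adjoin K (Set.range x) = ⊤

/-- the conclusion of the frozen statement `S16511` for the curve `W` over `K`: the `L`-series continues
analytically from `Re s > 3/2` to a connected open set containing `1`, where its order is the rank -/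
def RankConjecture (K : Type) [Field K] [NumberField K] (W : WeierstrassCurve K) : Prop :=
  ∃ (U : Set ℂ) (F : ℂ → ℂ),
    IsOpen U ∧ IsConnected U ∧ {s : ℂ | (3 / 2 : ℝ) < s.re} ⊆ U ∧ (1 : ℂ) ∈ U ∧
    AnalyticOnNhd ℂ F U ∧ (∀ s : ℂ, (3 / 2 : ℝ) < s.re → F s = W.LSeries s) ∧
    (∀ r : ℕ, r < Module.finrank ℤ W.toAffine.Point → iteratedDeriv r F 1 = 0) ∧
    iteratedDeriv (Module.finrank ℤ W.toAffine.Point) F 1 ≠ 0

/-- the `L`-series of `W` over `K` continues analytically from `Re s > 3/2` to a connected open set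
containing `1` and is not zero at `1` -/
def NonzeroAtOne (K : Type) [Field K] [NumberField K] (W : WeierstrassCurve K) : Prop :=
  ∃ (U : Set ℂ) (F : ℂ → ℂ),
    IsOpen U ∧ IsConnected U ∧ {s : ℂ | (3 / 2 : ℝ) < s.re} ⊆ U ∧ (1 : ℂ) ∈ U ∧
    AnalyticOnNhd ℂ F U ∧ (∀ s : ℂ, (3 / 2 : ℝ) < s.re → F s = W.LSeries s) ∧ F 1 ≠ 0

/-- the elements of `Ш(W/K)` whose order is a power of two -/
def Sha2 (K : Type) [Field K] [NumberField K] (W : WeierstrassCurve K) :
    Set (Pool.Agent.TH841.NF.D.Sha W) := {x | ∃ l : ℕ, (2 ^ l : ℕ) • x = 0}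

/-- the proportion `(1 - 1/2) (1 - 1/8) (1 - 1/32) ⋯` -/
noncomputable def c : ℝ := ∏' i : ℕ, (1 - (1 / 2 : ℝ) ^ (2 * i + 1))

/-- the number of the `D ≤ X` of the class with the property `Q` -/
noncomputable def count (R : Finset ℕ) (n : ℕ → ℕ) (Q : ℕ → Prop) (X : ℕ) : ℕ :=
  ((Finset.Icc 1 X).filter fun D => Class R n D ∧ Q D).card

/-- the proportion of the `D` of the class with the property `Q` is `δ` -/
def HasProportion (R : Finset ℕ) (n : ℕ → ℕ) (Q : ℕ → Prop) (δ : ℝ) : Prop :=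
  Tendsto (fun X : ℕ => (count R n Q X : ℝ) / (count R n (fun _ => True) X : ℝ)) atTop (𝓝 δ)

section proof

open Pool.Agent.X99.RL Pool.Agent.X99.C49.KR

variable {R : Finset ℕ} {n : ℕ → ℕ} {K : ∀ r : ℕ, IntermediateField ℚ (CyclotomicField r ℚ)}

lemma class_iff (hR0 : R.Nonempty) (D : ℕ) : Class R n D ↔ FamR R n D := by
  unfold Class FamR
  constructor
  · rintro ⟨h1, h2⟩
    have hf : Pool.Agent.X99.C49.Fam D := ⟨h1, fun p hp hd => (h2 p hp hd).1⟩
    exact ⟨hf, fun r hr => ⟨hf, fun p hp hd => (h2 p hp hd).2 r hr⟩⟩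
  · rintro ⟨h1, h2⟩
    exact ⟨h1.1, fun p hp hd => ⟨h1.2 p hp hd, fun r hr => (h2 r hr).2 p hp hd⟩⟩

lemma hr_of (hR : ∀ r ∈ R, r.Prime ∧ r % 4 = 1 ∧ ¬ IsSquare (-7 : ZMod r) ∧ 1 ≤ n r) : HR R := by
  intro r hr
  obtain ⟨h1, h2, h3, -⟩ := hR r hr
  refine ⟨h1, ?_⟩
  have h4 : Nat.Coprime (2 ^ 2 * 7) r := by
    refine Nat.Coprime.mul_left ?_ ?_
    · refine Nat.Coprime.pow_left 2 ?_
      rw [Nat.coprime_primes Nat.prime_two h1]
      rintro rfl
      exact absurd h2 (by decide)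
    · rw [Nat.coprime_primes (by norm_num) h1]
      rintro rfl
      exact absurd h2 (by decide)
  exact h4

lemma good_iff (hR0 : R.Nonempty)
    (hR : ∀ r ∈ R, r.Prime ∧ r % 4 = 1 ∧ ¬ IsSquare (-7 : ZMod r) ∧ 1 ≤ n r)
    (hK : ∀ r ∈ R, Module.finrank ℚ (K r) = 2 ^ n r) (D : ℕ) :
    Good R n K D ↔ (FamR R n D ∧ Crit D) := by
  unfold Good
  rw [class_iff hR0]
  refine and_congr_right fun hD => ?_
  have key : ∀ r ∈ R, ((Finite (E (K r) D).toAffine.Point ∧
      ∀ x : Pool.Agent.TH841.NF.D.Sha (E (K r) D), x + x = 0 → x = 0) ↔ Crit D) := by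
    intro r hr
    obtain ⟨h1, h2, h3, h4⟩ := hR r hr
    exact crit_K h1 h2 h3 h4 (K r) (hK r hr) (hD.2 r hr)
  constructor
  · intro h
    obtain ⟨r, hr⟩ := hR0
    exact (key r hr).1 (h r hr)
  · exact fun h r hr => (key r hr).2 h

lemma up_iff {C C' : ℕ → Prop} (h : ∀ D, C D ↔ C' D) (z : ℤ) : UpToSquares C z ↔ InSq C' z := by
  unfold UpToSquares InSq
  simp only [h]

lemma pair_iff (hR0 : R.Nonempty)
    (hR : ∀ r ∈ R, r.Prime ∧ r % 4 = 1 ∧ ¬ IsSquare (-7 : ZMod r) ∧ 1 ≤ n r)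
    (hK : ∀ r ∈ R, Module.finrank ℚ (K r) = 2 ^ n r) {k : ℕ} (M : ℤ) (d : Fin k → ℤ) :
    GoodPair R n K M d ↔ (Pool.Agent.Y687.MQ.Ind d ∧ All (FamR R n) Crit d M) := by
  unfold GoodPair
  simp only [up_iff (good_iff hR0 hR hK)]
  rfl

lemma prop_of (hR0 : R.Nonempty) {Q Q' : ℕ → Prop} {δ : ℝ}
    {i1 : DecidablePred fun D : ℕ => FamR R n D ∧ Q' D}
    {i2 : DecidablePred fun D : ℕ => FamR R n D} (h : Tendsto (fun X : ℕ =>
    (((Finset.Icc 1 X).filter fun D : ℕ => FamR R n D ∧ Q' D).card : ℝ) /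
      (((Finset.Icc 1 X).filter fun D : ℕ => FamR R n D).card : ℝ)) atTop (𝓝 δ))
    (hQ : ∀ D, FamR R n D → (Q D ↔ Q' D)) : HasProportion R n Q δ := by
  refine h.congr fun X => ?_
  unfold count
  refine congrArg₂ (fun a b : ℕ => (a : ℝ) / (b : ℝ)) ?_ ?_
  · refine Pool.Agent.X99.GJ.fc _ fun D _ => ?_
    rw [class_iff hR0]
    exact and_congr_right fun hD => (hQ D hD).symm
  · refine Pool.Agent.X99.GJ.fc _ fun D _ => ?_
    rw [class_iff hR0, and_true]

end proof

open Pool.Agent.X99.RL Pool.Agent.X99.C49.KR in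
theorem result (R : Finset ℕ) (n : ℕ → ℕ) (hR0 : R.Nonempty)
    (hR : ∀ r ∈ R, r.Prime ∧ r % 4 = 1 ∧ ¬ IsSquare (-7 : ZMod r) ∧ 1 ≤ n r)
    (K : ∀ r : ℕ, IntermediateField ℚ (CyclotomicField r ℚ))
    (hK : ∀ r ∈ R, Module.finrank ℚ (K r) = 2 ^ n r) :
    (∀ (k : ℕ) (M : ℤ) (d : Fin k → ℤ), GoodPair R n K M d → ∀ r ∈ R,
      ∀ (F : Type) [Field F] [NumberField F] [Algebra (K r) F], IsMultiquadratic (K r) d F →
      Module.finrank ℚ F = 2 ^ (n r + k) ∧ Finite (E F M).toAffine.Point ∧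
      NonzeroAtOne F (E F M) ∧ RankConjecture F (E F M) ∧
      (Sha2 F (E F M)).Finite ∧ ∀ x ∈ Sha2 F (E F M), (2 ^ k : ℕ) • x = 0) ∧
    (∀ (k : ℕ) (d : Fin k → ℤ) (M : ℤ), Independent d → (∀ i, UpToSquares (Class R n) (d i)) →
      UpToSquares (Class R n) M → HasProportion R n (fun D => GoodPair R n K (M * D) d) (c ^ 2 ^ k)) ∧
    (∀ (k : ℕ) (M : ℤ) (d : Fin k → ℤ), GoodPair R n K M d →
      HasProportion R n (fun D => GoodPair R n K M (Fin.snoc d (D : ℤ) : Fin (k + 1) → ℤ))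
        (c ^ 2 ^ k)) ∧
    0.4194 < c ∧ c < 0.4195 := by
  have hHR := hr_of hR
  have hC := cls_R (n := n) hHR
  have hJ := law_R (n := n) hHR
  refine ⟨fun k M d hd r hr F _ _ _ ⟨x, hx, hgen⟩ => ?_, fun k d M hd ha hM => ?_,
    fun k M d hd => ?_, ?_⟩
  · obtain ⟨hind, h⟩ := (pair_iff hR0 hR hK M d).1 hd
    obtain ⟨h1, h4, h7, hn⟩ := hR r hr
    have hF := deg_F hHR hr (K r) hind (all_in hC h).2 x hx hgen
    obtain ⟨hM0, hd0⟩ := all_ne hC h
    obtain ⟨m, f, hm, hf, hf1⟩ := lfun_F hHR hr h4 h7 hn (K r) (hK r hr) h hF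
    have hgk := gk_F hHR hr h4 h7 hn (K r) (hK r hr) h
    have hfin : Finite (E F M).toAffine.Point := fin_pts hF hM0 hd0 hgk
    have hr0 : Module.finrank ℤ (E F M).toAffine.Point = 0 :=
      Pool.Agent.Y687.finrank_zero_of_finite hfin
    have ho : analyticOrderAt f 1 = ((0 : ℕ) : ℕ∞) := by
      rw [Nat.cast_zero]
      exact (hf.1.analyticAt 1).analyticOrderAt_eq_zero.2 hf1
    obtain ⟨U, Φ, k1, k2, k3, k4, k5, k6, k7, k8⟩ :=
      Pool.Agent.X99.LS.concl (K := F) (cne hM0) hm hf ho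
    obtain ⟨h2, h3⟩ := sha_F hF hM0 hd0 hgk
    refine ⟨?_, hfin, ⟨U, Φ, k1, k2, k3, k4, k5, k6, by simpa using k8⟩, ?_, h2,
      fun y ⟨l, hy⟩ => h3 l y hy⟩
    · have hfd : FiniteDimensional (K r) F := Module.finite_of_finrank_pos (by
        rw [hF.deg]
        positivity)
      rw [← Module.finrank_mul_finrank ℚ (K r) F, hK r hr, hF.deg, ← pow_add]
    · unfold RankConjecture
      rw [hr0]
      exact ⟨U, Φ, k1, k2, k3, k4, k5, k6, k7, k8⟩
  · exact prop_of hR0 (prop_field' hC hJ hd (fun i => (up_iff (class_iff hR0) _).1 (ha i))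
      ((up_iff (class_iff hR0) _).1 hM)) fun D _ => by
        rw [pair_iff hR0 hR hK]
        exact ⟨fun h => h.2, fun h => ⟨hd, h⟩⟩
  · obtain ⟨hind, h⟩ := (pair_iff hR0 hR hK M d).1 hd
    refine prop_of hR0 (prop_ext' hC hJ hind h) fun D _ => ?_
    exact pair_iff hR0 hR hK M (Fin.snoc d (D : ℤ) : Fin (k + 1) → ℤ)
  · exact ⟨Pool.Agent.Y948.CQ.t_C2.2.2.2.1, Pool.Agent.Y948.CQ.t_C2.2.2.2.2⟩

end Pool.Agent.Results.MP_32c55d_nt.CyclicMultiquadraticFields
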