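import Pool.Agent.X280.BP.Twist2

/-!
# The products of Birch and Swinnerton-Dyer of quadratic twists

Let `E : y² = x³ + a x + b` be an elliptic curve over `ℚ`, `f` its newform, and let
`E_D : y² = x³ + a D² x + b D³` be its quadratic twists.  For an integral equation let
`P(y) = ∏_{p ≤ y, p ∤ 2Δ} N_p / p`, where `N_p` is the number of the points modulo `p` with the point at
infinity.  Birch and Swinnerton-Dyer were led to their conjecture by the expectation that `P(y)` grows like
`(log y)^r`, `r` the rank; so for a twist of rank `0` it should be bounded, for a twist of rank `1` it should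
grow like `log y`.

The theorem describes the products of almost all twists, uniformly in all lengths up to a power of `|D|`:

* for almost all `D`: `P(y) = (log y)^{1/2 + o(1)}`, whatever the rank of `E` and of `E_D` is;
* for almost all `D` of the form `v (u³ + a u v² + b v³)`, for which `E_D` has the rational point
  `(u g, g²)`, `g = u³ + a u v² + b v³` (the family of Gouvêa and Mazur): `P(y) = (log y)^{3/2 + o(1)}`.

More precisely, for every `δ > 0` there is a `C` such that for all `H` and `Y ≥ 3`, for all but a proportion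
`C / (log log Y)²` of the parameters of absolute value at most `H`, the inequalities
`(log y)^{κ - δ} ≤ P(y) ≤ (log y)^{κ + δ}`, `κ = 1/2` or `3/2`, hold for all `Y ≤ y ≤ H^{1/11}` at the same
time.  Moreover `(log P(y) - κ log log y) / √(log log y)` is asymptotically standard normal if `y` and
`log H / log y` tend to infinity.

So in this range neither the rank `0` nor the rank `1` of a twist is visible in its product: the exponent
`1/2` of all twists is the average rank which Goldfeld's conjecture predicts, and a point given by the family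
adds one to it.  (The first bound also holds for the squarefree `D`, which have positive density.)

Proof.  With `a_p` the traces of `E`, `log P(y)` is up to `O(1)` the sum of `-χ_D(p) a_p / p` and of
`1/p - a_p²/(2p²)` over the primes `p ≤ y`, `p ∤ D`.  By Rankin and Selberg (for the newform `f`) the sum of
`a_p²/p²` is `log log y + O(1)`.  The mean value of `χ_D(p)` is `0` for all twists, and `-a_p/p + O(1/p)` for
the twists with a point, so that in the second case the first sum has the mean value `log log y + O(1)`.  The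
moments of the partial sums over the box are compared with those of independent variables; a maximal
inequality in the style of Billingsley gives all lengths at the same time, and the method of characteristic
functions the normal law.
-/

set_option autoImplicit false

namespace Pool.Agent.Results.MP_32c55d_nt.ProductsOfQuadraticTwists

open Finset CongruenceSubgroup UpperHalfPlane
open scoped MatrixGroups

/-- `N_p`: the number of points of `y² = x³ + a x + b` modulo `p`, with the point at infinity. -/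
noncomputable def numPoints (a b : ℤ) (p : ℕ) : ℕ :=
  Nat.card {q : ZMod p × ZMod p // q.2 ^ 2 = q.1 ^ 3 + (a : ZMod p) * q.1 + (b : ZMod p)} + 1

/-- `p` is a prime that does not divide `2 Δ`, where `Δ = -4 a³ - 27 b²`. -/
def Good (a b : ℤ) (p : ℕ) : Prop :=
  p.Prime ∧ ¬ ((p : ℤ) ∣ 2 * (-4 * a ^ 3 - 27 * b ^ 2))

open Classical in
/-- `P(y)`: the product of `N_p / p` over the primes `p ≤ y` which do not divide `2 Δ`, for the curve
`y² = x³ + a x + b`. -/
noncomputable def P (a b : ℤ) (y : ℕ) : ℝ :=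
  ∏ p ∈ (range (y + 1)).filter (Good a b), ((numPoints a b p : ℝ) / p)

/-- The `n`-th Fourier coefficient of `f`. -/
noncomputable def coef {N : ℕ} (f : CuspForm (Gamma0 N : Subgroup (GL (Fin 2) ℝ)) 2) (n : ℕ) : ℂ :=
  (qExpansion 1 f).coeff n

/-- `f ∈ S_2(Γ₀(N))` is the newform of the elliptic curve `E : y² = x³ + a x + b` of conductor `N`: the
Fourier coefficients `c(n)` of `f` are real with `c(1) = 1`, they satisfy the Hecke relations
`c(mn) = c(m) c(n)` for coprime `m`, `n` and `c(p^(j+2)) = c(p) c(p^(j+1)) - p c(p^j)` (without the last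
term if `p ∣ N`), `c(p) = a_p = p + 1 - N_p` for all primes `p ∤ 2Δ`, `|c(p)| ≤ 2 √p` for all
`p ∤ N` (Hasse) and `c(p) = 0, 1, -1` for `p ∣ N`. -/
structure IsNewformOf (a b : ℤ) (N : ℕ) (f : CuspForm (Gamma0 N : Subgroup (GL (Fin 2) ℝ)) 2) :
    Prop where
  one : coef f 1 = 1
  real : ∀ n, (coef f n).im = 0
  mul : ∀ m n : ℕ, Nat.Coprime m n → coef f (m * n) = coef f m * coef f n
  pow : ∀ p j : ℕ, p.Prime → coef f (p ^ (j + 2)) = coef f p * coef f (p ^ (j + 1)) -
      (if p ∣ N then 0 else (p : ℂ) * coef f (p ^ j))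
  points : ∀ p : ℕ, Good a b p → coef f p = (p : ℂ) + 1 - (numPoints a b p : ℂ)
  good : ∀ p : ℕ, p.Prime → ¬ p ∣ N → ‖coef f p‖ ≤ 2 * Real.sqrt p
  bad : ∀ p : ℕ, p.Prime → p ∣ N → coef f p = 0 ∨ coef f p = 1 ∨ coef f p = -1

/-- All twists: `D` is the parameter. -/
def allTwists (c : Fin 1 → ℤ) : ℤ := c 0

/-- The twists with a rational point: `D = v (u³ + a u v² + b v³)`, the parameters are `u, v`. -/
def twistsWithPoint (a b : ℤ) (c : Fin 2 → ℤ) : ℤ :=
  c 1 * (c 0 ^ 3 + a * c 0 * c 1 ^ 2 + b * c 1 ^ 3)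

/-- **Typical size** `P(y) = (log y)^{κ + o(1)}` of the products of the twists `E_D`: for every `δ > 0` there
is a `C` such that for all `H` and `Y ≥ 3`, for all but `C (log log Y)⁻² (2H+1)ⁿ` of the integral parameters
with absolute values at most `H`, `(log y)^{κ - δ} ≤ P(y) ≤ (log y)^{κ + δ}` for all `y ≥ Y` with
`y¹¹ ≤ H`. -/
def Typical (a b : ℤ) {n : ℕ} (D : (Fin n → ℤ) → ℤ) (κ : ℝ) : Prop :=
  ∀ δ : ℝ, 0 < δ → ∃ C : ℝ, ∀ H Y : ℕ, 3 ≤ Y →
    ({c : Fin n → ℤ | (∀ i, |c i| ≤ H) ∧ ∃ y : ℕ, Y ≤ y ∧ y ^ 11 ≤ H ∧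
      (P (a * D c ^ 2) (b * D c ^ 3) y < Real.log y ^ (κ - δ) ∨
        Real.log y ^ (κ + δ) < P (a * D c ^ 2) (b * D c ^ 3) y)}.ncard : ℝ) ≤
    C / Real.log (Real.log Y) ^ 2 * (2 * H + 1 : ℝ) ^ n

/-- **The normal law** with the centre `κ log log y`: for all `u` and `ε > 0` there are `k` and `y₀` such
that for all `y ≥ y₀` and `H ≥ y ^ k`, the proportion of the integral parameters with absolute values at
most `H` for which `log P(y) ≤ κ log log y + u √(log log y)` differs by at most `ε` from the probability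
that a standard normal variable is at most `u`. -/
def NormalLaw (a b : ℤ) {n : ℕ} (D : (Fin n → ℤ) → ℤ) (κ : ℝ) : Prop :=
  ∀ u ε : ℝ, 0 < ε → ∃ k y₀ : ℕ, ∀ y H : ℕ, y₀ ≤ y → y ^ k ≤ H →
    |({c : Fin n → ℤ | (∀ i, |c i| ≤ H) ∧ Real.log (P (a * D c ^ 2) (b * D c ^ 3) y) ≤
      κ * Real.log (Real.log y) + u * √(Real.log (Real.log y))}.ncard : ℝ) / (2 * H + 1 : ℝ) ^ n -
      (ProbabilityTheory.gaussianReal 0 1).real (Set.Iic u)| ≤ ε

/-! ### Translation to the definitions of the imported files -/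

theorem good_iff (A B : ℤ) (p : ℕ) :
    Good A B p ↔ Pool.Agent.X280.BP.Gd (⟨0, 0, 0, A, B⟩ : WeierstrassCurve ℤ) p := by
  unfold Good Pool.Agent.X280.BP.Gd
  refine and_congr_right fun hp => not_congr ?_
  have hpi : Prime (p : ℤ) := Nat.prime_iff_prime_int.mp hp
  have e : 2 * (⟨0, 0, 0, A, B⟩ : WeierstrassCurve ℤ).Δ = 2 ^ 4 * (2 * (-4 * A ^ 3 - 27 * B ^ 2)) := by
    simp only [WeierstrassCurve.Δ, WeierstrassCurve.b₂, WeierstrassCurve.b₄,
      WeierstrassCurve.b₆, WeierstrassCurve.b₈]
    ring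
  rw [e]
  constructor
  · intro h
    exact Dvd.dvd.mul_left h _
  · intro h
    rcases hpi.dvd_or_dvd h with h1 | h1
    · exact Dvd.dvd.mul_right (hpi.dvd_of_dvd_pow h1) _
    · exact h1

theorem P_eq (A B : ℤ) (y : ℕ) :
    P A B y = Pool.Agent.X280.BP.bsd (⟨0, 0, 0, A, B⟩ : WeierstrassCurve ℤ) y := by
  classical
  unfold P Pool.Agent.X280.BP.bsd
  refine Finset.prod_congr ?_ fun p _ => ?_
  · ext p
    rw [Finset.mem_filter, Finset.mem_filter, good_iff]
  · unfold numPoints Pool.Agent.X280.BP.np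
    simp only [Int.cast_zero, zero_mul, add_zero]

theorem hecke {a b : ℤ} {N : ℕ} {f : CuspForm (Gamma0 N : Subgroup (GL (Fin 2) ℝ)) 2}
    (hf : IsNewformOf a b N f) : Pool.Agent.TH941.Hecke f where
  one := hf.one
  real := hf.real
  mul := hf.mul
  pow := hf.pow
  good := hf.good
  bad := fun p hp h => by
    rcases hf.bad p hp h with h1 | h1 | h1
    · have h2 : ‖coef f p‖ ≤ 1 := by rw [h1]; simp
      exact h2
    · have h2 : ‖coef f p‖ ≤ 1 := by rw [h1]; simp
      exact h2
    · have h2 : ‖coef f p‖ ≤ 1 := by rw [h1]; simp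
      exact h2

theorem belongs {a b : ℤ} {N : ℕ} {f : CuspForm (Gamma0 N : Subgroup (GL (Fin 2) ℝ)) 2}
    (hf : IsNewformOf a b N f) : Pool.Agent.TH941.Belongs a b f := fun p hp =>
  (hf.points p hp).trans (by
    unfold numPoints Pool.Agent.W263.BSD.pointCount
    push_cast
    ring)

/-- **The products of Birch and Swinnerton-Dyer of quadratic twists.** -/
theorem result (a b : ℤ) (hΔ : 4 * a ^ 3 + 27 * b ^ 2 ≠ 0) (N : ℕ) [NeZero N]
    (f : CuspForm (Gamma0 N : Subgroup (GL (Fin 2) ℝ)) 2) (hf : IsNewformOf a b N f) :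
    Typical a b allTwists (1 / 2) ∧ NormalLaw a b allTwists (1 / 2) ∧
      Typical a b (twistsWithPoint a b) (3 / 2) ∧ NormalLaw a b (twistsWithPoint a b) (3 / 2) := by
  have hw := Pool.Agent.X280.BP.rs_wE (hecke hf) hΔ (belongs hf)
  obtain ⟨K0, K1, hK0, hK1, h1, h2⟩ := Pool.Agent.X280.BP.twist_main hΔ hw allTwists
    (fun (p : ℕ) (c : Fin 1 → ZMod p) => c 0) (fun p c => rfl) Pool.Agent.X280.BP.tdat1
  obtain ⟨M0, M1, hM0, hM1, h3, h4⟩ := Pool.Agent.X280.BP.twist_main hΔ hw (twistsWithPoint a b)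
    (fun (p : ℕ) (c : Fin 2 → ZMod p) =>
      c 1 * (c 0 ^ 3 + (a : ZMod p) * c 0 * c 1 ^ 2 + (b : ZMod p) * c 1 ^ 3))
    (fun p c => by
      unfold twistsWithPoint Pool.Agent.Y722.HS.red
      push_cast
      rfl) Pool.Agent.X280.BP.tdat2
  rw [show (1 : ℝ) + (0 - 1 / 2) = 1 / 2 by norm_num] at h1
  rw [show (1 : ℝ) + (1 - 1 / 2) = 3 / 2 by norm_num] at h3
  refine ⟨fun δ hδ => ?_, fun u ε hε => ?_, fun δ hδ => ?_, fun u ε hε => ?_⟩
  · obtain ⟨K, hK⟩ := Pool.Agent.X280.BP.typical_fin (Pool.Agent.X280.BP.WT a b allTwists)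
      (Pool.Agent.X280.BP.has_twist a b _).sys (1 / 2) K0 hK0 h1 hδ
    refine ⟨K, fun H Y hY => ?_⟩
    have h := hK H Y hY
    rw [Fintype.card_fin] at h
    simp only [P_eq]
    exact h
  · obtain ⟨k, y0, hk⟩ := Pool.Agent.X280.BP.gauss_fin (Pool.Agent.X280.BP.WT a b allTwists)
      (Pool.Agent.X280.BP.has_twist a b _).sys (1 / 2) K0 K1 hK0 hK1 h1 h2 u hε
    refine ⟨k, y0, fun y H hy hH => ?_⟩
    have h := hk y H hy hH
    rw [Fintype.card_fin] at h
    simp only [P_eq]
    exact h
  · obtain ⟨K, hK⟩ := Pool.Agent.X280.BP.typical_fin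
      (Pool.Agent.X280.BP.WT a b (twistsWithPoint a b))
      (Pool.Agent.X280.BP.has_twist a b _).sys (3 / 2) M0 hM0 h3 hδ
    refine ⟨K, fun H Y hY => ?_⟩
    have h := hK H Y hY
    rw [Fintype.card_fin] at h
    simp only [P_eq]
    exact h
  · obtain ⟨k, y0, hk⟩ := Pool.Agent.X280.BP.gauss_fin
      (Pool.Agent.X280.BP.WT a b (twistsWithPoint a b))
      (Pool.Agent.X280.BP.has_twist a b _).sys (3 / 2) M0 M1 hM0 hM1 h3 h4 u hε
    refine ⟨k, y0, fun y H hy hH => ?_⟩
    have h := hk y H hy hH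
    rw [Fintype.card_fin] at h
    simp only [P_eq]
    exact h

end Pool.Agent.Results.MP_32c55d_nt.ProductsOfQuadraticTwists
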