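import Pool.Agent.X20.Tr.ThinB
import Pool.Agent.X20.BQ.Ram
import Pool.Agent.X20.BQ.Many
import Pool.Agent.Results.MP_32c55d_nt.MultiquadraticRank

/-!
# The rank conjecture of Birch and Swinnerton-Dyer over the fields generated by the square roots of `± ⌊α n ^ c⌋`

`E : y² + y = x³` over the fields `ℚ(√-3, √-7, √p₁*, …, √p_r*)`, where the `p_i` are prime numbers in a sparse sequence
`⌊α n ^ c⌋`, and `p* = p` if `p ≡ 1 mod 4`, `p* = -p` if `p ≡ 3 mod 4`.
From Mathlib: `dimH E`: the Hausdorff dimension; `⌊x⌋₊`: the integer part; `WeierstrassCurve.LSeries`: the `L`-series.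
-/

set_option autoImplicit false

open NumberField IsDedekindDomain

namespace Pool.Agent.Results.MP_32c55d_nt.SparseMultiquadraticFields

open Pool.Agent.X20.Tr
open Pool.Agent.Y854.PS (ms xs)

/-- `p` is a prime number, `p ≡ 1 mod 3`, and `2` is not a cube modulo `p`. -/
def Good (p : ℕ) : Prop := p.Prime ∧ p % 3 = 1 ∧ ∀ x : ZMod p, x ^ 3 ≠ 2

/-- `p* = p` if `p ≡ 1 mod 4`, and `p* = -p` otherwise. -/
def star (p : ℕ) : ℤ := if p % 4 = 1 then p else -p

/-- `F` is the field `ℚ(√-3, √-7)`. -/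
def IsBase (F : Type) [Field F] [NumberField F] : Prop :=
  Module.finrank ℚ F = 4 ∧ (∃ a : F, a ^ 2 = -3) ∧ ∃ b : F, b ^ 2 = -7

/-- `K` is generated over `F` by the square roots of the numbers `p*`, `p ∈ P` (and contains them). -/
def GeneratedBy (F K : Type) [Field F] [Field K] [Algebra F K] (P : Set ℕ) : Prop :=
  (∀ p ∈ P, ∃ x : K, x ^ 2 = ((star p : ℤ) : K)) ∧
    IntermediateField.adjoin F {x : K | ∃ p ∈ P, x ^ 2 = ((star p : ℤ) : K)} = ⊤

open Classical in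
/-- The conclusion of the frozen statement `S16511` for the elliptic curve `E : y² + y = x³` over `K`, with rank zero:
the group `E(K)` is finite, and the `L`-series of `E` over `K` continues analytically from `Re s > 3/2` to a connected
open set which contains `1`, where its order of vanishing is the rank of `E(K)`. -/
def RankZero (K : Type) [Field K] [NumberField K] : Prop :=
  ∀ E : WeierstrassCurve K, E = ⟨0, 0, 1, 0, 0⟩ →
    Finite E.toAffine.Point ∧
    ∃ (U : Set ℂ) (Φ : ℂ → ℂ),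
      IsOpen U ∧ IsConnected U ∧ {s : ℂ | (3 / 2 : ℝ) < s.re} ⊆ U ∧ (1 : ℂ) ∈ U ∧
      AnalyticOnNhd ℂ Φ U ∧ (∀ s : ℂ, (3 / 2 : ℝ) < s.re → Φ s = E.LSeries s) ∧
      (∀ r : ℕ, r < Module.finrank ℤ E.toAffine.Point → iteratedDeriv r Φ 1 = 0) ∧
      iteratedDeriv (Module.finrank ℤ E.toAffine.Point) Φ 1 ≠ 0

lemma star_eq (p : ℕ) : star p = Pool.Agent.X20.BQ.star p := rfl

/-- the conjecture for the fields generated by good primes -/
theorem rank_zero {F K : Type} [Field F] [NumberField F] [Field K] [NumberField K] [Algebra F K] (hF : IsBase F)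
    (T : Finset ℕ) (hT : ∀ p ∈ T, Good p) (hK : GeneratedBy F K {p | p ∈ T}) : RankZero K := by
  obtain ⟨hF4, ⟨a, ha⟩, ⟨b, hb⟩⟩ := hF
  have hG : Pool.Agent.X20.BQ.Gen F K T := hK
  have hgal := Pool.Agent.X20.BQ.isGalois hG
  have hgQ : IsGalois ℚ F := Pool.Agent.Y688.galQ hF4 ha hb
  have hfix : ∀ σ : F ≃ₐ[ℚ] F, σ * σ = 1 := by
    intro σ
    have key : ∀ (x : F) (m : ℤ), x ^ 2 = (m : F) → σ (σ x) = x := by
      intro x m hx
      have h1 : σ x ^ 2 = x ^ 2 := by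
        rw [← map_pow, hx, map_intCast]
      rcases sq_eq_sq_iff_eq_or_eq_neg.1 h1 with h2 | h2
      · rw [h2, h2]
      · rw [h2, map_neg, h2, neg_neg]
    ext x
    exact Pool.Agent.Y688.fix_all (K := F) hF4 ha hb (σ * σ) (key a (-3) (by rw [ha]; push_cast; rfl))
      (key b (-7) (by rw [hb]; push_cast; rfl)) x
  have hodd : ∀ p ∈ T, p % 2 = 1 := by
    intro p hp
    obtain ⟨h1, h2, _⟩ := hT p hp
    rcases h1.eq_two_or_odd with h3 | h3
    · rw [h3] at h2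
      omega
    · exact h3
  have hsq := Pool.Agent.X20.BQ.sq_eq_one hG
  have hcard : ∃ n : ℕ, Module.finrank F K = 2 ^ n := by
    have hp : IsPGroup 2 (K ≃ₐ[F] K) := fun g => ⟨1, by rw [pow_one, pow_two, hsq]⟩
    obtain ⟨n, hn⟩ := (IsPGroup.iff_card (p := 2)).1 hp
    exact ⟨n, by rw [← IsGalois.card_aut_eq_finrank]; exact hn⟩
  intro E hE
  refine MultiquadraticRank.result F K hF4 ⟨a, ha⟩ ⟨b, hb⟩ hcard ?_ (Or.inl hsq) E hE
  intro w σ hσ hne
  obtain ⟨p, hp, hpw⟩ := Pool.Agent.X20.BQ.ram hG hodd w σ hσ hne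
  right
  intro α
  have hpr := w.isPrime
  have hpr2 : (w.asIdeal.under (𝓞 F)).IsPrime := Ideal.IsPrime.under (𝓞 F) w.asIdeal
  refine Pool.Agent.X20.BQ.noncube_above hfix (hT p hp).1 (hT p hp).2.1 (hT p hp).2.2 _ ?_ α
  rw [Ideal.mem_comap, map_natCast]
  exact hpw

open Classical in
/-- For every real `c > 1` there are `κ > 0` and a set `A` of real numbers of Hausdorff dimension at most `1 - κ`
such that for every real `α > 0` outside `A`:

* for some `δ > 0` and all large `N` at least `δ N / log N` of the integers `n ≤ N` are such that `⌊α n ^ c⌋` is a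
  `Good` prime;
* for every finite set `T` of integers `n` with this property (and for every such `T`, all at once), for
  `F = ℚ(√-3, √-7)` and the field `K` generated over `F` by the square roots of the `⌊α n ^ c⌋*`, `n ∈ T`, the
  conclusion of `S16511` holds for the curve `E : y² + y = x³` over `K`, with rank zero. -/
theorem result (c : ℝ) (hc : 1 < c) : ∃ κ : ℝ, 0 < κ ∧ κ < 1 ∧ ∃ A : Set ℝ, dimH A ≤ ENNReal.ofReal (1 - κ) ∧
    ∀ α : ℝ, 0 < α → α ∉ A →
      (∃ δ : ℝ, 0 < δ ∧ ∃ N₀ : ℕ, ∀ N : ℕ, N₀ ≤ N →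
        δ * N / Real.log N ≤ (((Finset.Icc 1 N).filter (fun n : ℕ => Good ⌊α * (n : ℝ) ^ c⌋₊)).card : ℝ)) ∧
      (∀ T : Finset ℕ, (∀ n : ℕ, n ∈ T → Good ⌊α * (n : ℝ) ^ c⌋₊) →
        ∀ (F K : Type) [Field F] [NumberField F] [Field K] [NumberField K] [Algebra F K], IsBase F →
          GeneratedBy F K {p : ℕ | ∃ n : ℕ, n ∈ T ∧ p = ⌊α * (n : ℝ) ^ c⌋₊} → RankZero K) := by
  obtain ⟨κ, hκ0, hκ1, H⟩ := two_fam c hc
  obtain ⟨E, hE, h⟩ := H (fun _ => ind {m | Good m}) (fun _ => ind_tri _) ℕ (fun _ => ind {m | Good m})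
    (fun _ => ind_tri _)
  refine ⟨κ, hκ0, hκ1, E, hE, fun α hα hαE => ⟨?_, ?_⟩⟩
  · obtain ⟨_, _, h3⟩ := h α hα hαE
    obtain ⟨δ, hδ, X₀, h4⟩ := Pool.Agent.X20.BQ.many_good
    exact thin_log hc hα hκ0 (B := {m | Good m}) (h3 0) ⟨δ, hδ, X₀, fun X hX => h4 X hX⟩
  · intro T hT F K _ _ _ _ _ hF hK
    refine rank_zero hF (T.image fun n : ℕ => ⌊α * (n : ℝ) ^ c⌋₊) ?_ ?_
    · intro p hp
      rw [Finset.mem_image] at hp
      obtain ⟨n, hn, rfl⟩ := hp
      exact hT n hn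
    · have e : {p : ℕ | p ∈ T.image fun n : ℕ => ⌊α * (n : ℝ) ^ c⌋₊} =
          {p : ℕ | ∃ n : ℕ, n ∈ T ∧ p = ⌊α * (n : ℝ) ^ c⌋₊} := by
        ext p
        show p ∈ T.image (fun n : ℕ => ⌊α * (n : ℝ) ^ c⌋₊) ↔ ∃ n : ℕ, n ∈ T ∧ p = ⌊α * (n : ℝ) ^ c⌋₊
        rw [Finset.mem_image]
        constructor
        · rintro ⟨n, hn, h1⟩
          exact ⟨n, hn, h1.symm⟩
        · rintro ⟨n, hn, h1⟩
          exact ⟨n, hn, h1.symm⟩
      rw [e]
      exact hK

end Pool.Agent.Results.MP_32c55d_nt.SparseMultiquadraticFields
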